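import Pool.Agent.TH349.HI.GlueSum

/-!
# Blocks: several copies of a connected structure permuted cyclically
-/

set_option autoImplicit false

open Finset Equiv

namespace Pool.Agent.TH349.HI

variable {W U : Type}

theorem inv_ap (τ : Perm W) (w : W) : τ⁻¹ (τ w) = w := Equiv.symm_apply_apply τ w

theorem ap_inv (τ : Perm W) (w : W) : τ (τ⁻¹ w) = w := Equiv.apply_symm_apply τ w

/-- the block permutation of `s + 1` copies with return map `ρ` -/
def blk (s m : ℕ) (ρ : Perm (Fin m)) : Perm (Fin (s + 1) × Fin m) :=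
  (Equiv.prodCongrLeft fun _ => finRotate (s + 1)) * (Perm.prodExtendRight (Fin.last s) ρ)

theorem blk_last (s m : ℕ) (ρ : Perm (Fin m)) (j : Fin m) :
    blk s m ρ (Fin.last s, j) = (0, ρ j) := by
  unfold blk
  rw [Perm.mul_apply, Perm.prodExtendRight_apply_eq]
  simp [Equiv.prodCongrLeft]

theorem blk_castSucc (s m : ℕ) (ρ : Perm (Fin m)) (i : Fin s) (j : Fin m) :
    blk s m ρ (i.castSucc, j) = (i.succ, j) := by
  unfold blk
  rw [Perm.mul_apply, Perm.prodExtendRight_apply_ne]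
  · simp [Equiv.prodCongrLeft]
  · exact (Fin.castSucc_lt_last i).ne

theorem sign_blk (s m : ℕ) (ρ : Perm (Fin m)) :
    Perm.sign (blk s m ρ) = (-1) ^ (s * m) * Perm.sign ρ := by
  unfold blk
  rw [Perm.sign_mul, Perm.sign_prodCongrLeft, Perm.sign_prodExtendRight]
  simp only [sign_finRotate, prod_const, card_univ, Fintype.card_fin]
  rw [← pow_mul, Nat.add_sub_cancel]

/-- `s + 1` copies of `C`, twisted by the powers of `τ` -/
def tw (τ : Perm W) (s : ℕ) {m : ℕ} (C : Str W (Fin m)) : Str W (Fin (s + 1) × Fin m) where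
  A p q := p.1 = q.1 ∧ C.A p.2 q.2
  T p w := C.T p.2 ((τ ^ (p.1 : ℕ))⁻¹ w)
  symm := fun a b h => ⟨h.1.symm, C.symm _ _ h.2⟩
  irr := fun a h => C.irr _ h.2
  deg := by
    rintro ⟨i, j⟩
    have h1 : Nat.card {q : Fin (s + 1) × Fin m // i = q.1 ∧ C.A j q.2} =
        Nat.card {b : Fin m // C.A j b} := by
      refine Nat.card_congr
        { toFun := fun q => ⟨q.1.2, q.2.2⟩
          invFun := fun b => ⟨(i, b.1), rfl, b.2⟩
          left_inv := by
            rintro ⟨⟨i', k⟩, h, h'⟩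
            simp only at h
            subst h
            rfl
          right_inv := fun b => rfl }
    have h2 : Nat.card {w : W // C.T j ((τ ^ (i : ℕ))⁻¹ w)} = Nat.card {w : W // C.T j w} :=
      Nat.card_congr (Equiv.subtypeEquiv (τ ^ (i : ℕ))⁻¹ (fun b => Iff.rfl))
    simp only
    rw [h1, h2]
    exact C.deg j

theorem tw_e [Finite W] (τ : Perm W) (s : ℕ) {m : ℕ} (C : Str W (Fin m)) :
    (tw τ s C).e = (s + 1) * C.e := by
  have h1 : Nat.card {p : (Fin (s + 1) × Fin m) × W // (tw τ s C).T p.1 p.2} =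
      (s + 1) * Nat.card {p : Fin m × W // C.T p.1 p.2} := by
    have : Nat.card (Fin (s + 1) × {p : Fin m × W // C.T p.1 p.2}) =
        (s + 1) * Nat.card {p : Fin m × W // C.T p.1 p.2} := by
      rw [Nat.card_prod, Nat.card_fin]
    rw [← this]
    refine Nat.card_congr
      { toFun := fun p => (p.1.1.1, ⟨(p.1.1.2, (τ ^ (p.1.1.1 : ℕ))⁻¹ p.1.2), p.2⟩)
        invFun := fun p => ⟨((p.1, p.2.1.1), (τ ^ (p.1 : ℕ)) p.2.1.2), by
          have := p.2.2
          simp only [tw]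
          rwa [inv_ap]⟩
        left_inv := ?_
        right_inv := ?_ }
    · rintro ⟨⟨⟨i, j⟩, w⟩, h⟩
      simp only [ap_inv]
    · rintro ⟨i, ⟨⟨j, w⟩, h⟩⟩
      simp only [inv_ap]
  have h2 : Nat.card {p : (Fin (s + 1) × Fin m) × (Fin (s + 1) × Fin m) // (tw τ s C).A p.1 p.2} =
      (s + 1) * Nat.card {p : Fin m × Fin m // C.A p.1 p.2} := by
    have : Nat.card (Fin (s + 1) × {p : Fin m × Fin m // C.A p.1 p.2}) =
        (s + 1) * Nat.card {p : Fin m × Fin m // C.A p.1 p.2} := by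
      rw [Nat.card_prod, Nat.card_fin]
    rw [← this]
    refine Nat.card_congr
      { toFun := fun p => (p.1.1.1, ⟨(p.1.1.2, p.1.2.2), p.2.2⟩)
        invFun := fun p => ⟨((p.1, p.2.1.1), (p.1, p.2.1.2)), rfl, p.2.2⟩
        left_inv := ?_
        right_inv := ?_ }
    · rintro ⟨⟨⟨i, j⟩, ⟨i', j'⟩⟩, ⟨h, h'⟩⟩
      simp only at h
      subst h
      rfl
    · rintro ⟨i, ⟨⟨j, w⟩, h⟩⟩
      rfl
  unfold Str.e
  rw [h1, h2]
  obtain ⟨c, hc⟩ := C.even_A
  rw [hc]
  have h3 : (s + 1) * (c + c) = ((s + 1) * c) + ((s + 1) * c) := by ring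
  have h4 : (c + c) / 2 = c := by omega
  rw [h3, h4]
  have h5 : ((s + 1) * c + (s + 1) * c) / 2 = (s + 1) * c := by omega
  rw [h5, mul_add]

theorem Str.Fx.pow {S : Str W U} {τ : Perm W} {υ : Perm U} (h : S.Fx τ υ) (i : ℕ) :
    S.Fx (τ ^ i) (υ ^ i) := by
  induction i with
  | zero => exact ⟨fun a b => Iff.rfl, fun a w => Iff.rfl⟩
  | succ i ih =>
    rw [pow_succ', pow_succ']
    exact ⟨fun a b => (h.1 _ _).trans (ih.1 a b), fun a w => (h.2 _ _).trans (ih.2 a w)⟩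

theorem tw_Fx (τ : Perm W) (s : ℕ) {m : ℕ} (C : Str W (Fin m)) (ρ : Perm (Fin m))
    (h : C.Fx (τ ^ (s + 1)) ρ) : (tw τ s C).Fx τ (blk s m ρ) := by
  constructor
  · rintro ⟨i, j⟩ ⟨i', j'⟩
    have hi : (blk s m ρ (i, j)).1 = (blk s m ρ (i', j')).1 ↔ i = i' := by
      have : ∀ (i : Fin (s + 1)) (j : Fin m), (blk s m ρ (i, j)).1 = finRotate (s + 1) i := by
        intro i j
        unfold blk
        rw [Perm.mul_apply]
        by_cases hi : i = Fin.last s
        · subst hi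
          rw [Perm.prodExtendRight_apply_eq]
          rfl
        · rw [Perm.prodExtendRight_apply_ne]
          · rfl
          · exact hi
      rw [this, this, (finRotate (s + 1)).injective.eq_iff]
    change (_ = _ ∧ _) ↔ (_ ∧ _)
    rw [hi]
    apply and_congr_right
    rintro rfl
    rcases Fin.eq_castSucc_or_eq_last i with ⟨k, rfl⟩ | rfl
    · rw [blk_castSucc, blk_castSucc]
    · rw [blk_last, blk_last]
      exact h.1 j j'
  · rintro ⟨i, j⟩ w
    rcases Fin.eq_castSucc_or_eq_last i with ⟨k, rfl⟩ | rfl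
    · rw [blk_castSucc]
      change C.T j ((τ ^ (k.succ : ℕ))⁻¹ (τ w)) ↔ C.T j ((τ ^ (k.castSucc : ℕ))⁻¹ w)
      have : (τ ^ (k.succ : ℕ))⁻¹ (τ w) = (τ ^ (k.castSucc : ℕ))⁻¹ w := by
        rw [Fin.val_succ, pow_succ', mul_inv_rev, Perm.mul_apply, inv_ap]
        rfl
      rw [this]
    · rw [blk_last]
      change C.T (ρ j) ((τ ^ ((0 : Fin (s + 1)) : ℕ))⁻¹ (τ w)) ↔
        C.T j ((τ ^ ((Fin.last s : Fin (s + 1)) : ℕ))⁻¹ w)
      simp only [Fin.val_zero, pow_zero, inv_one, Perm.one_apply, Fin.val_last]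
      have h2 := h.2 j ((τ ^ s)⁻¹ w)
      rw [← h2, pow_succ', Perm.mul_apply, ap_inv]

end Pool.Agent.TH349.HI
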