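import Pool.Agent.TH349.HI.Count

/-!
# Counting points by components
-/

set_option autoImplicit false

open Finset Equiv

namespace Pool.Agent.TH349.HI

variable {W U : Type}

/-- the component of `a` -/
def comp (S : Str W U) (a : U) : Set U := {b | Relation.ReflTransGen S.A a b}

theorem mem_comp_self (S : Str W U) (a : U) : a ∈ comp S a := Relation.ReflTransGen.refl

theorem comp_closed (S : Str W U) (a b c : U) (hb : b ∈ comp S a) (h : S.A b c) :
    c ∈ comp S a := Relation.ReflTransGen.tail hb h

theorem comp_subset (S : Str W U) (a : U) (X : Set U) (ha : a ∈ X)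
    (hX : ∀ b c, b ∈ X → S.A b c → c ∈ X) : comp S a ⊆ X := by
  intro b hb
  induction hb with
  | refl => exact ha
  | tail _ h ih => exact hX _ _ ih h

theorem comp_symm (S : Str W U) {a b : U} (h : b ∈ comp S a) : a ∈ comp S b := by
  have h1 : Relation.ReflTransGen S.A a b := h
  induction h1 with
  | refl => exact mem_comp_self S _
  | tail h2 h3 ih => exact Relation.ReflTransGen.head (S.symm _ _ h3) (ih h2)

theorem comp_trans (S : Str W U) {a b c : U} (h : b ∈ comp S a) (h' : c ∈ comp S b) :
    c ∈ comp S a := Relation.ReflTransGen.trans h h'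

theorem compEmb_range {m : ℕ} (S : Str W U) (f : Fin m ↪ U) (h : CompEmb S f) (j0 : Fin m) :
    Set.range f = comp S (f j0) := by
  obtain ⟨C, hC, hf⟩ := h
  apply Set.Subset.antisymm
  · rintro _ ⟨j, rfl⟩
    have h1 := hC {j | f j ∈ comp S (f j0)} ⟨j0, mem_comp_self S _⟩ (by
      intro a b ha hab
      exact comp_closed S _ _ _ ha ((hf.2.1 a b).mpr hab))
    have h2 : j ∈ {j | f j ∈ comp S (f j0)} := by rw [h1]; trivial
    exact h2
  · apply comp_subset S _ _ (Set.mem_range_self j0)
    rintro _ c ⟨k, rfl⟩ hkc
    exact hf.1 _ _ hkc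

/-- restriction of a structure to a closed part -/
def pull {m : ℕ} (S : Str W U) (f : Fin m ↪ U) (hcl : ∀ a b, S.A (f a) b → ∃ c, f c = b) :
    Str W (Fin m) where
  A a b := S.A (f a) (f b)
  T a w := S.T (f a) w
  symm := fun a b h => S.symm _ _ h
  irr := fun a h => S.irr _ h
  deg := by
    intro a
    have h1 : Nat.card {c : Fin m // S.A (f a) (f c)} = Nat.card {b : U // S.A (f a) b} := by
      refine Nat.card_congr
        (Equiv.ofBijective (fun c => ⟨f c.1, c.2⟩) ⟨?_, ?_⟩)
      · intro b b' h
        apply Subtype.ext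
        exact f.injective (congrArg Subtype.val h)
      · rintro ⟨b, hb⟩
        obtain ⟨c, hc⟩ := hcl a b hb
        subst hc
        exact ⟨⟨c, hb⟩, rfl⟩
    rw [h1]
    exact S.deg (f a)

theorem compEmb_of_range {m : ℕ} (S : Str W U) (f : Fin m ↪ U) (a : U)
    (h : Set.range f = comp S a) : CompEmb S f := by
  have hcl : ∀ a b, S.A (f a) b → ∃ c, f c = b := by
    intro k b hb
    have h1 : f k ∈ comp S a := by rw [← h]; exact ⟨k, rfl⟩
    have h2 := comp_closed S _ _ _ h1 hb
    rw [← h] at h2
    exact h2
  refine ⟨pull S f hcl, ?_, hcl, fun _ _ => Iff.rfl, fun _ _ => Iff.rfl⟩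
  rintro X ⟨j0, hj0⟩ hX
  apply Set.eq_univ_of_forall
  intro k
  have hk : f k ∈ comp S a := by rw [← h]; exact ⟨k, rfl⟩
  have hj : f j0 ∈ comp S a := by rw [← h]; exact ⟨j0, rfl⟩
  have h1 : f k ∈ comp S (f j0) := comp_trans S (comp_symm S hj) hk
  have h2 : comp S (f j0) ⊆ f '' X := by
    apply comp_subset S _ _ (Set.mem_image_of_mem f hj0)
    rintro _ c ⟨i, hi, rfl⟩ hic
    obtain ⟨c', hc'⟩ := hcl i c hic
    subst hc'
    exact ⟨c', hX i c' hi hic, rfl⟩
  obtain ⟨i, hi, hik⟩ := h2 h1
  rwa [← f.injective hik]

open Classical in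
theorem card_range_eq [Fintype U] (X : Set U) (m : ℕ) :
    (univ.filter fun f : Fin m ↪ U => Set.range f = X).card =
      if Nat.card X = m then m.factorial else 0 := by
  split_ifs with h
  · have e : {f : Fin m ↪ U // Set.range f = X} ≃ (Fin m ≃ X) :=
      { toFun := fun f => (Equiv.ofInjective f.1 f.1.injective).trans (Equiv.setCongr f.2)
        invFun := fun g => ⟨⟨fun j => (g j).1, fun a b hab => g.injective (Subtype.ext hab)⟩, by
          ext u
          constructor
          · rintro ⟨j, rfl⟩
            exact (g j).2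
          · intro hu
            exact ⟨g.symm ⟨u, hu⟩, by simp⟩⟩
        left_inv := by
          intro f
          apply Subtype.ext
          ext j
          rfl
        right_inv := by
          intro g
          ext j
          rfl }
    rw [← Fintype.card_subtype, Fintype.card_congr e]
    have h2 : Nonempty (Fin m ≃ X) := by
      rw [Nat.card_eq_fintype_card] at h
      exact ⟨(Fintype.equivFinOfCardEq h).symm⟩
    rw [Fintype.card_equiv h2.some, Fintype.card_fin]
  · rw [Finset.card_eq_zero, Finset.filter_eq_empty_iff]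
    intro f _ hf
    apply h
    rw [← hf, Nat.card_congr (Equiv.ofInjective f f.injective).symm, Nat.card_fin]

variable {F : Type} [Field F] [CharZero F]

open Classical in
theorem sum_at [Fintype U] (S : Str W U) (a : U) :
    ∑ m ∈ Icc 1 (Fintype.card U), (1 / (m.factorial : F)) *
      ((univ.filter fun f : Fin m ↪ U => CompEmb S f ∧ ∃ j, f j = a).card : F) = 1 := by
  have h1 : ∀ m ∈ Icc 1 (Fintype.card U), (1 / (m.factorial : F)) *
      ((univ.filter fun f : Fin m ↪ U => CompEmb S f ∧ ∃ j, f j = a).card : F) =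
      if Nat.card (comp S a) = m then 1 else 0 := by
    intro m _
    have h2 : (univ.filter fun f : Fin m ↪ U => CompEmb S f ∧ ∃ j, f j = a) =
        (univ.filter fun f : Fin m ↪ U => Set.range f = comp S a) := by
      apply Finset.filter_congr
      intro f _
      constructor
      · rintro ⟨h, j, rfl⟩
        exact compEmb_range S f h j
      · intro h
        refine ⟨compEmb_of_range S f a h, ?_⟩
        have h3 : a ∈ Set.range f := by rw [h]; exact mem_comp_self S a
        exact h3
    rw [h2, card_range_eq]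
    split_ifs with h
    · have : (m.factorial : F) ≠ 0 := by exact_mod_cast m.factorial_ne_zero
      field_simp
    · simp
  rw [Finset.sum_congr rfl h1, Finset.sum_ite_eq]
  rw [if_pos]
  rw [mem_Icc]
  constructor
  · have : Nonempty (comp S a) := ⟨⟨a, mem_comp_self S a⟩⟩
    exact Nat.card_pos
  · rw [← Nat.card_eq_fintype_card]
    exact Nat.card_le_card_of_injective (fun x : comp S a => x.1) Subtype.val_injective

open Classical in
theorem sum_points [Fintype U] (S : Str W U) :
    (Fintype.card U : F) = ∑ m ∈ Icc 1 (Fintype.card U), ((m : F) / (m.factorial : F)) *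
      ((univ.filter fun f : Fin m ↪ U => CompEmb S f).card : F) := by
  have h0 : (Fintype.card U : F) = ∑ a : U, ∑ m ∈ Icc 1 (Fintype.card U), (1 / (m.factorial : F)) *
      ((univ.filter fun f : Fin m ↪ U => CompEmb S f ∧ ∃ j, f j = a).card : F) := by
    rw [Finset.sum_congr rfl (fun a _ => sum_at S a)]
    simp
  rw [h0, Finset.sum_comm]
  apply Finset.sum_congr rfl
  intro m _
  rw [← Finset.mul_sum, one_div, div_eq_inv_mul, mul_assoc]
  congr 1
  have h1 : ∀ a : U, ((univ.filter fun f : Fin m ↪ U => CompEmb S f ∧ ∃ j, f j = a).card : F) =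
      ∑ f ∈ univ.filter (fun f : Fin m ↪ U => CompEmb S f), if ∃ j, f j = a then 1 else 0 := by
    intro a
    rw [← Finset.sum_filter, Finset.filter_filter]
    simp
  simp_rw [h1]
  rw [Finset.sum_comm]
  have h2 : ∀ f : Fin m ↪ U, ∑ a : U, (if ∃ j, f j = a then (1 : F) else 0) = m := by
    intro f
    rw [← Finset.sum_filter]
    simp only [sum_const, nsmul_eq_mul, mul_one]
    have h3 : (univ.filter fun a : U => ∃ j, f j = a) = univ.map f := by
      ext a
      simp
    rw [h3, Finset.card_map, Finset.card_univ, Fintype.card_fin]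
  rw [Finset.sum_congr rfl (fun f _ => h2 f)]
  simp [mul_comm]

end Pool.Agent.TH349.HI
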