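import Pool.Agent.TH349.HI.Block

/-!
# Orbits of components: embeddings of a connected structure and embeddings of blocks
-/

set_option autoImplicit false

open Finset Equiv

namespace Pool.Agent.TH349.HI

variable {W U : Type}

/-- `f` parametrizes a connected component -/
def CompEmb (S : Str W U) {m : ℕ} (f : Fin m → U) : Prop :=
  ∃ C : Str W (Fin m), C.Conn ∧ Emb S C f

/-- the first slice of an embedding of a block -/
def slice {s m : ℕ} (f : Fin (s + 1) × Fin m ↪ U) : Fin m ↪ U :=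
  ⟨fun j => f (0, j), fun j j' h => by
    have := f.injective h
    exact (Prod.mk.inj this).2⟩

theorem valid_pow {s m : ℕ} (f : Fin (s + 1) × Fin m ↪ U) (υ : Perm U) (ρ : Perm (Fin m))
    (h : ∀ b, υ (f b) = f (blk s m ρ b)) (i : ℕ) (hi : i < s + 1) (j : Fin m) :
    (υ ^ i) (f (0, j)) = f (⟨i, hi⟩, j) := by
  induction i with
  | zero => rfl
  | succ i ih =>
    rw [pow_succ', Perm.mul_apply, ih (by omega), h]
    have : (⟨i, by omega⟩ : Fin (s + 1)) = (⟨i, by omega⟩ : Fin s).castSucc := rfl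
    rw [this, blk_castSucc]
    rfl

theorem valid_pow_last {s m : ℕ} (f : Fin (s + 1) × Fin m ↪ U) (υ : Perm U) (ρ : Perm (Fin m))
    (h : ∀ b, υ (f b) = f (blk s m ρ b)) (j : Fin m) :
    (υ ^ (s + 1)) (f (0, j)) = f (0, ρ j) := by
  rw [pow_succ', Perm.mul_apply, valid_pow f υ ρ h s (by omega), h]
  have : (⟨s, by omega⟩ : Fin (s + 1)) = Fin.last s := rfl
  rw [this, blk_last]

theorem not_lt_aux {s s' m : ℕ} (hm : 1 ≤ m) (f : Fin (s + 1) × Fin m ↪ U)
    (f' : Fin (s' + 1) × Fin m ↪ U) (υ : Perm U) (ρ ρ' : Perm (Fin m))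
    (h : ∀ b, υ (f b) = f (blk s m ρ b)) (h' : ∀ b, υ (f' b) = f' (blk s' m ρ' b))
    (hs : slice f = slice f') : ¬ s < s' := by
  intro hlt
  have hs' : ∀ j, f (0, j) = f' (0, j) := fun j => congrFun (congrArg DFunLike.coe hs) j
  let j : Fin m := ⟨0, hm⟩
  have h1 := valid_pow_last f υ ρ h j
  have h2 := valid_pow f' υ ρ' h' (s + 1) (by omega) j
  rw [hs', hs'] at h1
  rw [h1] at h2
  have h3 := f'.injective h2
  have h4 := congrArg (fun p : Fin (s' + 1) × Fin m => (p.1 : ℕ)) h3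
  simp at h4

theorem Emb.slice_emb {s m : ℕ} {S : Str W U} {C : Str W (Fin m)} {τ : Perm W}
    {f : Fin (s + 1) × Fin m ↪ U} (h : Emb S (tw τ s C) f) : Emb S C (slice f) := by
  refine ⟨?_, ?_, ?_⟩
  · intro a b hab
    obtain ⟨⟨i, k⟩, hc⟩ := h.1 (0, a) b hab
    subst hc
    have h2 := (h.2.1 (0, a) (i, k)).mp hab
    have h3 : (0 : Fin (s + 1)) = i := h2.1
    subst h3
    exact ⟨k, rfl⟩
  · intro a b
    exact (h.2.1 (0, a) (0, b)).trans ⟨fun h => h.2, fun h => ⟨rfl, h⟩⟩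
  · intro a w
    have := h.2.2 (0, a) w
    exact this

theorem Emb.unique {B : Type} {S : Str W U} {C C' : Str W B} {f : B → U}
    (h : Emb S C f) (h' : Emb S C' f) : C = C' := by
  apply Str.ext
  · funext a b
    exact propext ((h.2.1 a b).symm.trans (h'.2.1 a b))
  · funext a w
    exact propext ((h.2.2 a w).symm.trans (h'.2.2 a w))

/-- reconstruction of the block from its first slice -/
theorem exists_block [Finite U] {m : ℕ} (hm : 1 ≤ m) (S : Str W U) (τ : Perm W) (υ : Perm U)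
    (hS : S.Fx τ υ) (f : Fin m ↪ U) (C : Str W (Fin m)) (hC : C.Conn) (hf : Emb S C f) :
    ∃ (s : ℕ) (ρ : Perm (Fin m)) (g : Fin (s + 1) × Fin m ↪ U),
      C.Fx (τ ^ (s + 1)) ρ ∧ (∀ b, υ (g b) = g (blk s m ρ b)) ∧ Emb S (tw τ s C) g ∧
      slice g = f := by
  classical
  have hex : ∃ r : ℕ, 1 ≤ r ∧ ∃ j j', (υ ^ r) (f j) = f j' := by
    refine ⟨orderOf υ, orderOf_pos υ, ⟨0, hm⟩, ⟨0, hm⟩, ?_⟩
    rw [pow_orderOf_eq_one]
    rfl
  set r := Nat.find hex with hr
  obtain ⟨hr1, j0, j0', hj0⟩ := Nat.find_spec hex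
  have hmin : ∀ i, 1 ≤ i → i < r → ∀ j j', (υ ^ i) (f j) ≠ f j' := by
    intro i hi1 hi2 j j' h
    exact Nat.find_min hex hi2 ⟨hi1, j, j', h⟩
  obtain ⟨s, hs⟩ : ∃ s, r = s + 1 := ⟨r - 1, by omega⟩
  have hSr := hS.pow r
  -- all of the component returns at time `r`
  have hall : ∀ j, ∃ j', (υ ^ r) (f j) = f j' := by
    have h1 := hC {j | ∃ j', (υ ^ r) (f j) = f j'} ⟨j0, j0', hj0⟩ (by
      rintro a b ⟨a', ha'⟩ hab
      have h2 := (hf.2.1 a b).mpr hab
      have h3 := (hSr.1 (f a) (f b)).mpr h2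
      rw [ha'] at h3
      obtain ⟨c, hc⟩ := hf.1 _ _ h3
      exact ⟨c, hc.symm⟩)
    intro j
    have h2 : j ∈ {j | ∃ j', (υ ^ r) (f j) = f j'} := by rw [h1]; trivial
    exact h2
  choose ρ0 hρ0 using hall
  have hρinj : Function.Injective ρ0 := by
    intro a b hab
    have h1 : (υ ^ r) (f a) = (υ ^ r) (f b) := by rw [hρ0, hρ0, hab]
    exact f.injective ((υ ^ r).injective h1)
  let ρ : Perm (Fin m) := Equiv.ofBijective ρ0 (Finite.injective_iff_bijective.mp hρinj)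
  have hρ : ∀ j, (υ ^ r) (f j) = f (ρ j) := hρ0
  have hginj : Function.Injective (fun p : Fin (s + 1) × Fin m => (υ ^ (p.1 : ℕ)) (f p.2)) := by
    have aux : ∀ (i i' : ℕ) (j j' : Fin m), i' < r → i < i' →
        (υ ^ i) (f j) = (υ ^ i') (f j') → False := by
      intro i i' j j' hi' hlt h
      have h1 : i' = i + (i' - i) := by omega
      rw [h1, pow_add, Perm.mul_apply] at h
      have h2 := (υ ^ i).injective h
      exact hmin (i' - i) (by omega) (by omega) j' j h2.symm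
    rintro ⟨i, j⟩ ⟨i', j'⟩ h
    simp only at h
    have hi := i.isLt
    have hi' := i'.isLt
    rcases lt_trichotomy (i : ℕ) (i' : ℕ) with hlt | heq | hgt
    · exact (aux _ _ _ _ (by omega) hlt h).elim
    · have h1 : i = i' := Fin.ext heq
      subst h1
      have h2 := f.injective ((υ ^ (i : ℕ)).injective h)
      rw [h2]
    · exact (aux _ _ _ _ (by omega) hgt h.symm).elim
  let g : Fin (s + 1) × Fin m ↪ U := ⟨_, hginj⟩
  have hg : ∀ i j, g (i, j) = (υ ^ (i : ℕ)) (f j) := fun i j => rfl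
  refine ⟨s, ρ, g, ?_, ?_, ?_, ?_⟩
  · rw [← hs]
    constructor
    · intro a b
      rw [← hf.2.1, ← hf.2.1, ← hρ, ← hρ]
      exact hSr.1 _ _
    · intro a w
      rw [← hf.2.2, ← hf.2.2, ← hρ]
      exact hSr.2 _ _
  · rintro ⟨i, j⟩
    rcases Fin.eq_castSucc_or_eq_last i with ⟨k, rfl⟩ | rfl
    · rw [blk_castSucc, hg, hg, Fin.val_succ, pow_succ', Perm.mul_apply]
      rfl
    · rw [blk_last, hg, hg, Fin.val_last, Fin.val_zero, pow_zero, Perm.one_apply, ← hρ, hs,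
        pow_succ', Perm.mul_apply]
  · have hcl : ∀ (i : Fin (s + 1)) (j : Fin m) (b : U), S.A (g (i, j)) b → ∃ k, g (i, k) = b := by
      intro i j b hb
      rw [hg] at hb
      have h1 := (hS.pow (i : ℕ)).1 (f j) ((υ ^ (i : ℕ))⁻¹ b)
      rw [ap_inv] at h1
      obtain ⟨k, hk⟩ := hf.1 _ _ (h1.mp hb)
      exact ⟨k, by rw [hg, hk, ap_inv]⟩
    refine ⟨?_, ?_, ?_⟩
    · rintro ⟨i, j⟩ b hb
      obtain ⟨k, hk⟩ := hcl i j b hb
      exact ⟨(i, k), hk⟩
    · rintro ⟨i, j⟩ ⟨i', j'⟩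
      constructor
      · intro h
        obtain ⟨k, hk⟩ := hcl i j _ h
        have h2 := g.injective hk
        simp only [Prod.mk.injEq] at h2
        obtain ⟨h3, h4⟩ := h2
        subst h3 h4
        refine ⟨rfl, ?_⟩
        rw [hg, hg] at h
        exact (hf.2.1 _ _).mp (((hS.pow (i : ℕ)).1 _ _).mp h)
      · rintro ⟨h1, h2⟩
        simp only at h1 h2
        subst h1
        rw [hg, hg]
        exact ((hS.pow (i : ℕ)).1 _ _).mpr ((hf.2.1 _ _).mpr h2)
    · rintro ⟨i, j⟩ w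
      rw [hg]
      have h1 := (hS.pow (i : ℕ)).2 (f j) ((τ ^ (i : ℕ))⁻¹ w)
      rw [ap_inv] at h1
      rw [h1]
      exact hf.2.2 _ _
  · ext j
    change g (0, j) = f j
    rw [hg]
    rfl

open Classical in
theorem card_compEmb [Fintype W] [Fintype U] [DecidableEq U] {m : ℕ} (hm : 1 ≤ m) (S : Str W U)
    (τ : Perm W) (υ : Perm U) (hS : S.Fx τ υ) :
    (univ.filter fun f : Fin m ↪ U => CompEmb S f).card =
    ∑ s ∈ range (Fintype.card U / m), ∑ q ∈ univ.filter (fun q : Perm (Fin m) × Str W (Fin m) =>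
      q.2.Conn ∧ q.2.Fx (τ ^ (s + 1)) q.1),
      (univ.filter fun f : Fin (s + 1) × Fin m ↪ U =>
        (∀ b, υ (f b) = f (blk s m q.1 b)) ∧ Emb S (tw τ s q.2) f).card := by
  symm
  have hsig : ∀ s : ℕ, ∑ q ∈ univ.filter (fun q : Perm (Fin m) × Str W (Fin m) =>
      q.2.Conn ∧ q.2.Fx (τ ^ (s + 1)) q.1),
      (univ.filter fun f : Fin (s + 1) × Fin m ↪ U =>
        (∀ b, υ (f b) = f (blk s m q.1 b)) ∧ Emb S (tw τ s q.2) f).card =
      ((univ.filter (fun q : Perm (Fin m) × Str W (Fin m) =>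
        q.2.Conn ∧ q.2.Fx (τ ^ (s + 1)) q.1)).sigma (fun q =>
        (univ.filter fun f : Fin (s + 1) × Fin m ↪ U =>
        (∀ b, υ (f b) = f (blk s m q.1 b)) ∧ Emb S (tw τ s q.2) f))).card := by
    intro s
    rw [Finset.card_sigma]
  simp_rw [hsig]
  rw [← Finset.card_sigma]
  refine Finset.card_bij (fun a _ => slice a.2.2) ?_ ?_ ?_
  · rintro ⟨s, q, f⟩ h
    simp only [mem_sigma, mem_filter, mem_univ, true_and] at h ⊢
    exact ⟨q.2, h.2.1.1, h.2.2.2.slice_emb⟩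
  · rintro ⟨s, ⟨ρ, C⟩, f⟩ h ⟨s', ⟨ρ', C'⟩, f'⟩ h' heq
    simp only [mem_sigma, mem_filter, mem_univ, true_and] at h h'
    simp only at heq
    have h1 := not_lt_aux hm f f' υ ρ ρ' h.2.2.1 h'.2.2.1 heq
    have h2 := not_lt_aux hm f' f υ ρ' ρ h'.2.2.1 h.2.2.1 heq.symm
    have h3 : s = s' := by omega
    subst h3
    have hs : ∀ j, f (0, j) = f' (0, j) := fun j => congrFun (congrArg DFunLike.coe heq) j
    have hf : f = f' := by
      ext ⟨i, j⟩
      have e1 := valid_pow f υ ρ h.2.2.1 i i.isLt j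
      have e2 := valid_pow f' υ ρ' h'.2.2.1 i i.isLt j
      rw [hs, e2] at e1
      exact e1.symm
    subst hf
    have hρ : ρ = ρ' := by
      ext j
      have e1 := valid_pow_last f υ ρ h.2.2.1 j
      have e2 := valid_pow_last f υ ρ' h'.2.2.1 j
      rw [e1] at e2
      have e3 := f.injective e2
      rw [(Prod.mk.inj e3).2]
    subst hρ
    have hC : C = C' := by
      have e1 := h.2.2.2.slice_emb
      have e2 := h'.2.2.2.slice_emb
      exact e1.unique e2
    subst hC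
    rfl
  · intro f hf
    simp only [mem_filter, mem_univ, true_and] at hf
    obtain ⟨C, hC, hfC⟩ := hf
    obtain ⟨s, ρ, g, h1, h2, h3, h4⟩ := exists_block hm S τ υ hS f C hC hfC
    refine ⟨⟨s, ⟨ρ, C⟩, g⟩, ?_, h4⟩
    simp only [mem_sigma, mem_filter, mem_univ, true_and, mem_range]
    refine ⟨?_, ⟨hC, h1⟩, h2, h3⟩
    have h5 := Fintype.card_le_of_embedding g
    rw [Fintype.card_prod, Fintype.card_fin, Fintype.card_fin] at h5
    have h6 : s + 1 ≤ Fintype.card U / m := (Nat.le_div_iff_mul_le hm).mpr h5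
    omega

end Pool.Agent.TH349.HI
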