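import Mathlib

/-!
# MP_5f0aae_co: definitions for the enumeration of homeomorphically irreducible graphs

A graph whose point set is `W ⊕ U`, every point of `U` having degree two, is the same as a graph on
`W` together with a structure on `U` over `W` (`Str W U`).
-/

set_option autoImplicit false

open Finset Equiv

namespace Pool.Agent.TH349.HI

/-- A structure on `U` over `W`: adjacency on `U` and attachments of points of `U` to points of
`W`, every point of `U` having total degree two. -/
@[ext] structure Str (W U : Type) : Type where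
  A : U → U → Prop
  T : U → W → Prop
  symm : ∀ a b, A a b → A b a
  irr : ∀ a, ¬ A a a
  deg : ∀ a, Nat.card {b // A a b} + Nat.card {w // T a w} = 2

instance instFiniteStr (W U : Type) [Finite W] [Finite U] : Finite (Str W U) :=
  Finite.of_injective (fun S : Str W U => (S.A, S.T)) (by
    intro S S' h
    have h1 := congrArg Prod.fst h
    have h2 := congrArg Prod.snd h
    exact Str.ext h1 h2)

noncomputable instance instFintypeStr (W U : Type) [Finite W] [Finite U] : Fintype (Str W U) :=
  Fintype.ofFinite _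

/-- the number of lines of a structure -/
noncomputable def Str.e {W U : Type} (S : Str W U) : ℕ :=
  Nat.card {p : U × W // S.T p.1 p.2} + Nat.card {p : U × U // S.A p.1 p.2} / 2

/-- `(τ, υ)` is an automorphism of the structure -/
def Str.Fx {W U : Type} (τ : Perm W) (υ : Perm U) (S : Str W U) : Prop :=
  (∀ a b, S.A (υ a) (υ b) ↔ S.A a b) ∧ (∀ a w, S.T (υ a) (τ w) ↔ S.T a w)

/-- connectedness: there is no proper nonempty closed set -/
def Str.Conn {W U : Type} (S : Str W U) : Prop :=
  ∀ X : Set U, X.Nonempty → (∀ a b, a ∈ X → S.A a b → b ∈ X) → X = Set.univ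

/-- `C` is the path `f 0, f 1, …, f (m-1)` with `f 0` attached to `u` and `f (m-1)` attached to
`v` -/
def IsPath {W : Type} {m : ℕ} (C : Str W (Fin m)) (f : Perm (Fin m)) (u v : W) : Prop :=
  (∀ i j : Fin m, C.A (f i) (f j) ↔ (i.val + 1 = j.val ∨ j.val + 1 = i.val)) ∧
  (∀ (i : Fin m) (w : W), C.T (f i) w ↔ ((i.val = 0 ∧ w = u) ∨ (i.val + 1 = m ∧ w = v)))

/-- `C` is the polygon `f 0, f 1, …, f (m-1)` -/
def IsCyc {W : Type} {m : ℕ} (C : Str W (Fin m)) (f : Perm (Fin m)) : Prop :=
  3 ≤ m ∧
  (∀ i j : Fin m, C.A (f i) (f j) ↔ ((i.val + 1) % m = j.val ∨ (j.val + 1) % m = i.val)) ∧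
  (∀ (i : Fin m) (w : W), ¬ C.T (f i) w)

variable {F : Type} [Field F]

open Classical in
/-- signed sum over the pairs (permutation of `U`, structure fixed by it) -/
noncomputable def Z (W U : Type) [Fintype W] [Fintype U] [DecidableEq U]
    (τ : Perm W) (x : F) : F :=
  ∑ υ : Perm U, ∑ S : Str W U, if S.Fx τ υ then ((Perm.sign υ : ℤ) : F) * x ^ S.e else 0

open Classical in
/-- the contribution of the connected structures on `m` points -/
noncomputable def cc (W : Type) [Fintype W] (τ : Perm W) (x : F) (m : ℕ) : F :=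
  (-1) ^ m / (m.factorial : F) * ∑ ρ : Perm (Fin m), ∑ C : Str W (Fin m),
    if C.Conn ∧ C.Fx τ ρ then ((Perm.sign ρ : ℤ) : F) * x ^ C.e else 0

/-- the normalized signed sum for `M` points -/
noncomputable def PM (W : Type) [Fintype W] (τ : Perm W) (x : F) (M : ℕ) : F :=
  (-1) ^ M / (M.factorial : F) * Z W (Fin M) τ x

open Classical in
/-- generating function by lines of the graphs on `W` fixed by `τ` -/
noncomputable def QW (W : Type) [Fintype W] (τ : Perm W) (x : F) : F :=
  ∑ G : SimpleGraph W, if (∀ a b, G.Adj (τ a) (τ b) ↔ G.Adj a b) then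
    x ^ Nat.card G.edgeSet else 0

/-- `G` is homeomorphically irreducible: no point has degree two -/
def HIrr {V : Type} (G : SimpleGraph V) : Prop := ∀ v, Nat.card (G.neighborSet v) ≠ 2

/-- isomorphism of homeomorphically irreducible graphs with `p` points and `q` lines -/
def isoSetoid (p q : ℕ) :
    Setoid {G : SimpleGraph (Fin p) // HIrr G ∧ Nat.card G.edgeSet = q} where
  r G H := Nonempty (G.1 ≃g H.1)
  iseqv := ⟨fun _ => ⟨SimpleGraph.Iso.refl⟩, fun ⟨f⟩ => ⟨f.symm⟩, fun ⟨f⟩ ⟨g⟩ => ⟨f.trans g⟩⟩

/-- the number of (unlabeled) homeomorphically irreducible graphs with `p` points and `q` lines -/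
noncomputable def h (p q : ℕ) : ℕ := Nat.card (Quotient (isoSetoid p q))

/-- the number of cycles of length `k` of a permutation (fixed points are cycles of length one) -/
def cyc {W : Type} [Fintype W] [DecidableEq W] (τ : Perm W) (k : ℕ) : ℕ := τ.partition.parts.count k

/-- the power series `1 - c y ^ b` in `y` -/
noncomputable def fac (c : F) (b : ℕ) : PowerSeries F := 1 - PowerSeries.C c * PowerSeries.X ^ b

/-- factor of the orbits (of length `l`) of pairs of distinct points that are not reversed -/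
noncomputable def al (x : F) (n l : ℕ) : PowerSeries F :=
  ∏ m ∈ Icc 1 n, if Odd m then fac (x ^ (l * (m + 1))) (l * m)
    else (fac (x ^ (l * (m + 1))) (l * m))⁻¹

/-- factor of the orbits (of length `l`) of pairs of distinct points that are reversed -/
noncomputable def be (x : F) (n l : ℕ) : PowerSeries F :=
  ∏ m ∈ Icc 1 n, if Odd m then fac (-((-1) ^ ((m + 1) / 2) * x ^ (l * (m + 1)))) (l * m)
    else (fac ((-1) ^ (m / 2) * x ^ (l * (m + 1))) (l * m))⁻¹

/-- factor of the cycles of length `l` -/
noncomputable def la (x : F) (n l : ℕ) : PowerSeries F :=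
  ∏ k ∈ Icc 1 n, (fac (x ^ (l * (4 * k + 2))) (l * (4 * k + 1)) *
    (fac (x ^ (l * (4 * k + 1))) (l * (4 * k)))⁻¹)

/-- factor of the isolated polygons -/
noncomputable def cy (x : F) (n : ℕ) : PowerSeries F :=
  ∏ k ∈ Icc 1 n, fac (x ^ (4 * k + 1)) (4 * k + 1)

/-- the product attached to a cycle type `j` (`j k` cycles of length `k`, `k ≤ K`) -/
noncomputable def ppr (x : F) (n K : ℕ) (j : ℕ → ℕ) : PowerSeries F :=
  (∏ k ∈ Icc 1 K, (la x n k ^ j k * al x n k ^ ((k - 1) / 2 * j k + k * (j k).choose 2) *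
    (if Even k then be x n (k / 2) ^ j k else 1))) *
  ∏ k ∈ Icc 1 K, ∏ l ∈ Icc (k + 1) K, al x n (k.lcm l) ^ (k.gcd l * j k * j l)

/-- the generating function of the fixed graphs for a cycle type `j` -/
noncomputable def pgr (x : F) (K : ℕ) (j : ℕ → ℕ) : F :=
  (∏ k ∈ Icc 1 K, ((1 + x ^ k) ^ ((k - 1) / 2 * j k + k * (j k).choose 2) *
    (if Even k then (1 + x ^ (k / 2)) ^ j k else 1))) *
  ∏ k ∈ Icc 1 K, ∏ l ∈ Icc (k + 1) K, (1 + x ^ k.lcm l) ^ (k.gcd l * j k * j l)

end Pool.Agent.TH349.HI
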