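import Pool.Agent.TH349.HI.Value
import Pool.Agent.TH59.HI.Split
import Pool.Agent.TH365.J372
import Pool.Agent.TH365.J379

/-!
# Assembly of the closed form
-/

set_option autoImplicit false

open Finset Equiv

namespace Pool.Agent.TH349.HI

variable {F : Type} [Field F] [CharZero F]

theorem h_eq_zero (p q : ℕ) (hq : p.choose 2 < q) : h p q = 0 := by
  classical
  unfold h
  rw [Nat.card_eq_zero]
  left
  refine ⟨fun a => ?_⟩
  obtain ⟨G, -, hG⟩ := a.out
  have h1 := G.card_edgeFinset_le_card_choose_two
  rw [Fintype.card_fin] at h1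
  rw [Nat.card_eq_fintype_card, ← SimpleGraph.edgeFinset_card] at hG
  omega

theorem sum_h (p : ℕ) (x : F) :
    ∑ q ∈ range (p.choose 2 + 1), (h p q : F) * x ^ q =
      ∑ q ∈ range (p * p + 1), (h p q : F) * x ^ q := by
  apply Finset.sum_subset
  · intro q hq
    rw [mem_range] at hq ⊢
    have : p.choose 2 ≤ p * p := by
      rw [Nat.choose_two_right]
      calc p * (p - 1) / 2 ≤ p * (p - 1) := Nat.div_le_self _ _
        _ ≤ p * p := Nat.mul_le_mul_left _ (Nat.sub_le _ _)
    omega
  · intro q _ hq
    rw [mem_range, not_lt] at hq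
    rw [h_eq_zero p q (by omega)]
    simp

theorem h_formula (p n : ℕ) (hn : p ≤ n) (x : F) :
    ∑ q ∈ range (p.choose 2 + 1), (h p q : F) * x ^ q =
      ∑ N ∈ range (p + 1), ∑ π : N.Partition,
        1 / ((∏ k ∈ Icc 1 N, (k ^ π.parts.count k * (π.parts.count k).factorial) : ℕ) : F) *
          (pgr x N (fun k => π.parts.count k) *
            PowerSeries.coeff (p - N) (cy x n * ppr x n N (fun k => π.parts.count k))) := by
  have h1 := Pool.Agent.TH365.J372.burnside_h p x
  rw [Pool.Agent.TH59.HI.split_h, ← sum_h] at h1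
  have hp : (p.factorial : F) ≠ 0 := by exact_mod_cast p.factorial_ne_zero
  apply mul_left_cancel₀ hp
  rw [h1, Finset.mul_sum]
  apply Finset.sum_congr rfl
  intro N hN
  rw [mem_range] at hN
  have hN' : N ≤ p := by omega
  have h2 : ∀ τ : Perm (Fin N), QW (Fin N) τ x * ((-1) ^ (p - N) * Z (Fin N) (Fin (p - N)) τ x) =
      ((p - N).factorial : F) * (pgr x N (cyc τ) *
        PowerSeries.coeff (p - N) (cy x n * ppr x n N (cyc τ))) := by
    intro τ
    rw [← PM_eq (Fin N) τ x N (by simp) n (p - N) (by omega),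
      Pool.Agent.TH365.J379.QW_eq (Fin N) τ x N (by simp)]
    unfold PM
    have h3 : ((p - N).factorial : F) ≠ 0 := by exact_mod_cast (p - N).factorial_ne_zero
    field_simp
  simp_rw [h2]
  rw [← Finset.mul_sum, Pool.Agent.TH405.J380.sum_perm_partition N (fun j => pgr x N j *
    PowerSeries.coeff (p - N) (cy x n * ppr x n N j)), ← mul_assoc, Finset.mul_sum, Finset.mul_sum]
  apply Finset.sum_congr rfl
  intro π _
  have h4 : (p.factorial : F) = (p.choose N : F) * (N.factorial : F) * ((p - N).factorial : F) := by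
    rw [← Nat.choose_mul_factorial_mul_factorial hN']
    push_cast
    ring
  rw [h4]
  ring

end Pool.Agent.TH349.HI
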