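import Pool.Agent.TH349.HI.Defs

set_option autoImplicit false

open Finset

namespace Pool.Agent.TH349.HI

/-- number of fixed points of the `r`-th power, in terms of the cycle numbers `j` -/
def fixn (K : ℕ) (j : ℕ → ℕ) (r : ℕ) : ℕ := ∑ k ∈ Icc 1 K, if k ∣ r then k * j k else 0

end Pool.Agent.TH349.HI
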