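import Pool.Agent.TH349.HI.Defs

/-!
# Transport and gluing of structures
-/

set_option autoImplicit false

open Finset Equiv

namespace Pool.Agent.TH349.HI

variable {W U U' B : Type}

/-- relabel a structure along an equivalence -/
def Str.map (e : U ≃ U') (S : Str W U) : Str W U' where
  A a b := S.A (e.symm a) (e.symm b)
  T a w := S.T (e.symm a) w
  symm := fun a b h => S.symm _ _ h
  irr := fun a h => S.irr _ h
  deg := fun a => by
    have h1 : Nat.card {b : U' // S.A (e.symm a) (e.symm b)} = Nat.card {b : U // S.A (e.symm a) b} :=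
      Nat.card_congr (Equiv.subtypeEquiv e.symm (fun b => Iff.rfl))
    rw [h1]
    exact S.deg (e.symm a)

theorem Str.map_symm_map (e : U ≃ U') (S : Str W U) : (S.map e).map e.symm = S := by
  apply Str.ext
  · funext a b; simp [Str.map]
  · funext a w; simp [Str.map]

theorem Str.map_map_symm (e : U ≃ U') (S : Str W U') : (S.map e.symm).map e = S := by
  apply Str.ext
  · funext a b; simp [Str.map]
  · funext a w; simp [Str.map]

/-- relabeling as an equivalence -/
def Str.mapEquiv (W : Type) (e : U ≃ U') : Str W U ≃ Str W U' where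
  toFun := Str.map e
  invFun := Str.map e.symm
  left_inv := Str.map_symm_map e
  right_inv := Str.map_map_symm e

theorem Str.map_e (e : U ≃ U') (S : Str W U) : (S.map e).e = S.e := by
  unfold Str.e
  congr 1
  · exact Nat.card_congr (Equiv.subtypeEquiv (Equiv.prodCongr e.symm (Equiv.refl W))
      (fun b => Iff.rfl))
  · congr 1
    exact Nat.card_congr (Equiv.subtypeEquiv (Equiv.prodCongr e.symm e.symm)
      (fun b => Iff.rfl))

theorem Str.map_Fx (e : U ≃ U') (S : Str W U) (τ : Perm W) (υ : Perm U) :
    (S.map e).Fx τ (e.permCongr υ) ↔ S.Fx τ υ := by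
  unfold Str.Fx Str.map
  simp only [Equiv.permCongr_apply, Equiv.symm_apply_apply]
  constructor
  · rintro ⟨h1, h2⟩
    refine ⟨fun a b => ?_, fun a w => ?_⟩
    · simpa using h1 (e a) (e b)
    · simpa using h2 (e a) w
  · rintro ⟨h1, h2⟩
    exact ⟨fun a b => h1 _ _, fun a w => h2 _ _⟩

variable {F : Type} [Field F]

/-- the weight of a pair -/
noncomputable def wt [Fintype U] [DecidableEq U] (x : F) (p : Perm U × Str W U) : F :=
  ((Perm.sign p.1 : ℤ) : F) * x ^ p.2.e

theorem wt_map [Fintype U] [DecidableEq U] [Fintype U'] [DecidableEq U'] (e : U ≃ U') (x : F)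
    (υ : Perm U) (S : Str W U) : wt x (e.permCongr υ, S.map e) = wt x (υ, S) := by
  unfold wt
  simp only [Perm.sign_permCongr, Str.map_e]

open Classical in
theorem Z_eq [Fintype W] [Fintype U] [DecidableEq U] (τ : Perm W) (x : F) :
    Z W U τ x = ∑ p ∈ univ.filter (fun p : Perm U × Str W U => p.2.Fx τ p.1), wt x p := by
  unfold Z
  rw [Finset.sum_filter, ← Finset.univ_product_univ, Finset.sum_product]
  rfl

theorem Z_congr [Fintype W] [Fintype U] [DecidableEq U] [Fintype U'] [DecidableEq U']
    (e : U ≃ U') (τ : Perm W) (x : F) : Z W U τ x = Z W U' τ x := by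
  classical
  rw [Z_eq, Z_eq]
  refine Finset.sum_bij' (fun p _ => (e.permCongr p.1, p.2.map e))
    (fun p _ => (e.symm.permCongr p.1, p.2.map e.symm)) ?_ ?_ ?_ ?_ ?_
  · rintro ⟨υ, S⟩ h
    simp only [mem_filter, mem_univ, true_and] at h ⊢
    exact (Str.map_Fx e S τ υ).mpr h
  · rintro ⟨υ, S⟩ h
    simp only [mem_filter, mem_univ, true_and] at h ⊢
    exact (Str.map_Fx e.symm S τ υ).mpr h
  · rintro ⟨υ, S⟩ h
    simp only [Str.map_symm_map, Prod.mk.injEq, and_true]
    ext a; simp
  · rintro ⟨υ, S⟩ h
    simp only [Str.map_map_symm, Prod.mk.injEq, and_true]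
    ext a; simp
  · rintro ⟨υ, S⟩ h
    exact (wt_map e x υ S).symm

/-- the number of ordered adjacent pairs is even -/
theorem Str.even_A [Finite U] (S : Str W U) :
    Even (Nat.card {p : U × U // S.A p.1 p.2}) := by
  classical
  have := Fintype.ofFinite U
  let G : SimpleGraph U := ⟨S.A, ⟨fun a b h => S.symm a b h⟩, ⟨fun a h => S.irr a h⟩⟩
  have e : {p : U × U // S.A p.1 p.2} ≃ G.Dart :=
    { toFun := fun p => ⟨p.1, p.2⟩
      invFun := fun d => ⟨d.toProd, d.adj⟩
      left_inv := fun _ => rfl
      right_inv := fun _ => rfl }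
  rw [Nat.card_congr e, Nat.card_eq_fintype_card, G.dart_card_eq_twice_card_edges]
  exact even_two_mul _

/-- disjoint union of structures -/
def glue (D : Str W B) (S : Str W U) : Str W (B ⊕ U) where
  A := Sum.elim (fun a => Sum.elim (D.A a) (fun _ => False))
    (fun a => Sum.elim (fun _ => False) (S.A a))
  T := Sum.elim D.T S.T
  symm := by
    rintro (a | a) (b | b) h
    · exact D.symm _ _ h
    · exact h
    · exact h
    · exact S.symm _ _ h
  irr := by
    rintro (a | a) h
    · exact D.irr _ h
    · exact S.irr _ h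
  deg := by
    rintro (a | a)
    · have h1 : Nat.card {b : B ⊕ U // Sum.elim (D.A a) (fun _ => False) b} =
          Nat.card {b : B // D.A a b} := by
        refine Nat.card_congr
          { toFun := fun b => match b with
              | ⟨.inl b, hb⟩ => ⟨b, hb⟩
              | ⟨.inr b, hb⟩ => absurd hb (fun h => h)
            invFun := fun b => ⟨.inl b.1, b.2⟩
            left_inv := by rintro ⟨b | b, hb⟩ <;> first | rfl | exact absurd hb (fun h => h)
            right_inv := fun b => rfl }
      simp only [Sum.elim_inl]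
      rw [h1]
      exact D.deg a
    · have h1 : Nat.card {b : B ⊕ U // Sum.elim (fun _ => False) (S.A a) b} =
          Nat.card {b : U // S.A a b} := by
        refine Nat.card_congr
          { toFun := fun b => match b with
              | ⟨.inr b, hb⟩ => ⟨b, hb⟩
              | ⟨.inl b, hb⟩ => absurd hb (fun h => h)
            invFun := fun b => ⟨.inr b.1, b.2⟩
            left_inv := by rintro ⟨b | b, hb⟩ <;> first | rfl | exact absurd hb (fun h => h)
            right_inv := fun b => rfl }
      simp only [Sum.elim_inr]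
      rw [h1]
      exact S.deg a

theorem glue_e [Finite W] [Finite B] [Finite U] (D : Str W B) (S : Str W U) :
    (glue D S).e = D.e + S.e := by
  have h1 : Nat.card {p : (B ⊕ U) × W // (glue D S).T p.1 p.2} =
      Nat.card {p : B × W // D.T p.1 p.2} + Nat.card {p : U × W // S.T p.1 p.2} := by
    rw [← Nat.card_sum]
    refine Nat.card_congr
      { toFun := fun p => match p with
          | ⟨(.inl a, w), h⟩ => .inl ⟨(a, w), h⟩
          | ⟨(.inr a, w), h⟩ => .inr ⟨(a, w), h⟩
        invFun := fun p => match p with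
          | .inl ⟨(a, w), h⟩ => ⟨(.inl a, w), h⟩
          | .inr ⟨(a, w), h⟩ => ⟨(.inr a, w), h⟩
        left_inv := by rintro ⟨⟨a | a, w⟩, h⟩ <;> rfl
        right_inv := by rintro (⟨⟨a, w⟩, h⟩ | ⟨⟨a, w⟩, h⟩) <;> rfl }
  have h2 : Nat.card {p : (B ⊕ U) × (B ⊕ U) // (glue D S).A p.1 p.2} =
      Nat.card {p : B × B // D.A p.1 p.2} + Nat.card {p : U × U // S.A p.1 p.2} := by
    rw [← Nat.card_sum]
    refine Nat.card_congr
      { toFun := fun p => match p with
          | ⟨(.inl a, .inl b), h⟩ => .inl ⟨(a, b), h⟩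
          | ⟨(.inr a, .inr b), h⟩ => .inr ⟨(a, b), h⟩
          | ⟨(.inl a, .inr b), h⟩ => absurd h (fun h => h)
          | ⟨(.inr a, .inl b), h⟩ => absurd h (fun h => h)
        invFun := fun p => match p with
          | .inl ⟨(a, b), h⟩ => ⟨(.inl a, .inl b), h⟩
          | .inr ⟨(a, b), h⟩ => ⟨(.inr a, .inr b), h⟩
        left_inv := by
          rintro ⟨⟨a | a, b | b⟩, h⟩ <;> first | rfl | exact absurd h (fun h => h)
        right_inv := by rintro (⟨⟨a, w⟩, h⟩ | ⟨⟨a, w⟩, h⟩) <;> rfl }
  have h3 := D.even_A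
  unfold Str.e
  rw [h1, h2]
  obtain ⟨c, hc⟩ := h3
  omega

/-- `F` embeds the structure `D` on `B` in `S` as a closed part -/
def Emb (S : Str W U) (D : Str W B) (f : B → U) : Prop :=
  (∀ a b, S.A (f a) b → ∃ c, f c = b) ∧ (∀ a b, S.A (f a) (f b) ↔ D.A a b) ∧
    (∀ a w, S.T (f a) w ↔ D.T a w)

/-- the rest of a structure -/
def rest (S : Str W (B ⊕ U)) (hS : ∀ a b, S.A (.inl a) b → ∃ c : B, .inl c = b) : Str W U where
  A a b := S.A (.inr a) (.inr b)
  T a w := S.T (.inr a) w
  symm := fun a b h => S.symm _ _ h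
  irr := fun a h => S.irr _ h
  deg := by
    intro a
    have h1 : Nat.card {b : B ⊕ U // S.A (.inr a) b} = Nat.card {b : U // S.A (.inr a) (.inr b)} := by
      symm
      refine Nat.card_congr
        (Equiv.ofBijective (fun b => ⟨.inr b.1, b.2⟩) ⟨?_, ?_⟩)
      · intro b b' h
        apply Subtype.ext
        have := congrArg Subtype.val h
        exact Sum.inr_injective this
      · rintro ⟨b | b, hb⟩
        · obtain ⟨c, hc⟩ := hS b _ (S.symm _ _ hb)
          exact absurd hc (by simp)
        · exact ⟨⟨b, hb⟩, rfl⟩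
    rw [← h1]
    exact S.deg (.inr a)

theorem glue_rest (D : Str W B) (S : Str W (B ⊕ U)) (h : Emb S D Sum.inl) :
    glue D (rest S h.1) = S := by
  apply Str.ext
  · funext a b
    apply propext
    rcases a with a | a <;> rcases b with b | b
    · exact (h.2.1 a b).symm
    · constructor
      · intro h'; exact absurd h' (fun h => h)
      · intro h'
        obtain ⟨c, hc⟩ := h.1 _ _ h'
        exact absurd hc (by simp)
    · constructor
      · intro h'; exact absurd h' (fun h => h)
      · intro h'
        obtain ⟨c, hc⟩ := h.1 _ _ (S.symm _ _ h')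
        exact absurd hc (by simp)
    · exact Iff.rfl
  · funext a w
    apply propext
    rcases a with a | a
    · exact (h.2.2 a w).symm
    · exact Iff.rfl

theorem emb_glue (D : Str W B) (S : Str W U) : Emb (glue D S) D Sum.inl := by
  refine ⟨?_, fun a b => Iff.rfl, fun a w => Iff.rfl⟩
  rintro a (b | b) h
  · exact ⟨b, rfl⟩
  · exact absurd h (fun h => h)

theorem rest_glue (D : Str W B) (S : Str W U) (h) : rest (glue D S) h = S := by
  apply Str.ext
  · rfl
  · rfl

theorem glue_Fx (D : Str W B) (S : Str W U) (τ : Perm W) (β : Perm B) (υ : Perm U)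
    (hD : D.Fx τ β) : (glue D S).Fx τ (Equiv.sumCongr β υ) ↔ S.Fx τ υ := by
  constructor
  · rintro ⟨h1, h2⟩
    exact ⟨fun a b => h1 (.inr a) (.inr b), fun a w => h2 (.inr a) w⟩
  · rintro ⟨h1, h2⟩
    refine ⟨?_, ?_⟩
    · rintro (a | a) (b | b)
      · exact hD.1 a b
      · exact Iff.rfl
      · exact Iff.rfl
      · exact h1 a b
    · rintro (a | a) w
      · exact hD.2 a w
      · exact h2 a w

end Pool.Agent.TH349.HI
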