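import Pool.Agent.TH349.HI.Glue

/-!
# The sum over the pairs containing a given closed part
-/

set_option autoImplicit false

open Finset Equiv

namespace Pool.Agent.TH349.HI

variable {W U B : Type} {F : Type} [Field F]

open Classical in
theorem glue_sum [Fintype W] [Fintype B] [DecidableEq B] [Fintype U] [DecidableEq U]
    (τ : Perm W) (x : F) (β : Perm B) (D : Str W B) (hD : D.Fx τ β) :
    ∑ p ∈ univ.filter (fun p : Perm (B ⊕ U) × Str W (B ⊕ U) =>
      p.2.Fx τ p.1 ∧ (∀ b, p.1 (Sum.inl b) = Sum.inl (β b)) ∧ Emb p.2 D Sum.inl), wt x p =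
    ((Perm.sign β : ℤ) : F) * x ^ D.e * Z W U τ x := by
  rw [Z_eq, Finset.mul_sum]
  symm
  refine Finset.sum_bij (fun p _ => (Equiv.sumCongr β p.1, glue D p.2)) ?_ ?_ ?_ ?_
  · rintro ⟨υ, S⟩ h
    simp only [mem_filter, mem_univ, true_and] at h ⊢
    exact ⟨(glue_Fx D S τ β υ hD).mpr h, fun b => rfl, emb_glue D S⟩
  · rintro ⟨υ, S⟩ h ⟨υ', S'⟩ h' heq
    simp only [Prod.mk.injEq] at heq
    obtain ⟨h1, h2⟩ := heq
    simp only [Prod.mk.injEq]
    constructor
    · ext a
      have := congrArg (fun g : Perm (B ⊕ U) => g (Sum.inr a)) h1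
      simp only [Equiv.sumCongr_apply, Sum.map_inr, Sum.inr.injEq] at this
      exact this
    · rw [← rest_glue D S (emb_glue D S).1, ← rest_glue D S' (emb_glue D S').1]
      congr 1
  · rintro ⟨π, S⟩ h
    simp only [mem_filter, mem_univ, true_and] at h
    obtain ⟨h1, h2, h3⟩ := h
    have hm : Set.MapsTo π (Set.range Sum.inl) (Set.range (Sum.inl : B → B ⊕ U)) := by
      rintro _ ⟨b, rfl⟩
      exact ⟨β b, (h2 b).symm⟩
    obtain ⟨⟨σ₁, υ⟩, hσ⟩ := Equiv.Perm.mem_sumCongrHom_range_of_perm_mapsTo_inl hm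
    have hσ' : Equiv.sumCongr σ₁ υ = π := hσ
    have hσ1 : σ₁ = β := by
      ext b
      have h4 := h2 b
      rw [← hσ'] at h4
      simpa using h4
    subst hσ1
    refine ⟨(υ, rest S h3.1), ?_, ?_⟩
    · simp only [mem_filter, mem_univ, true_and]
      rw [← glue_Fx D (rest S h3.1) τ σ₁ υ hD, glue_rest D S h3, hσ']
      exact h1
    · simp only [Prod.mk.injEq]
      exact ⟨hσ', glue_rest D S h3⟩
  · rintro ⟨υ, S⟩ h
    unfold wt
    simp only
    have hs : Perm.sign (Equiv.sumCongr β υ) = Perm.sign β * Perm.sign υ :=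
      Perm.sign_sumCongr β υ
    rw [hs, glue_e, pow_add]
    push_cast
    ring

theorem exists_equiv_sum [Fintype B] [Fintype U] (f : B ↪ U) (k : ℕ)
    (hk : Fintype.card U = Fintype.card B + k) :
    ∃ e : U ≃ B ⊕ Fin k, ∀ b, e (f b) = Sum.inl b := by
  classical
  have hc : Fintype.card ((Set.range f)ᶜ : Set U) = k := by
    rw [Fintype.card_compl_set, Set.card_range_of_injective f.injective]
    omega
  refine ⟨((Equiv.Set.sumCompl (Set.range f)).symm).trans (Equiv.sumCongr
    (Equiv.ofInjective f f.injective).symm (Fintype.equivFinOfCardEq hc)), fun b => ?_⟩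
  have hb : f b ∈ Set.range f := ⟨b, rfl⟩
  rw [Equiv.trans_apply, Equiv.Set.sumCompl_symm_apply_of_mem hb]
  simp only [Equiv.sumCongr_apply, Sum.map_inl, Sum.inl.injEq]
  exact Equiv.ofInjective_symm_apply f.injective b

open Classical in
theorem emb_sum [Fintype W] [Fintype B] [DecidableEq B] [Fintype U] [DecidableEq U]
    (τ : Perm W) (x : F) (β : Perm B) (D : Str W B) (hD : D.Fx τ β) (f : B ↪ U) (k : ℕ)
    (hk : Fintype.card U = Fintype.card B + k) :
    ∑ p ∈ univ.filter (fun p : Perm U × Str W U =>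
      p.2.Fx τ p.1 ∧ (∀ b, p.1 (f b) = f (β b)) ∧ Emb p.2 D f), wt x p =
    ((Perm.sign β : ℤ) : F) * x ^ D.e * Z W (Fin k) τ x := by
  obtain ⟨e, he⟩ := exists_equiv_sum f k hk
  have he' : ∀ b, e.symm (Sum.inl b) = f b := fun b => by rw [← he b, Equiv.symm_apply_apply]
  rw [← glue_sum τ x β D hD]
  have key : ∀ (υ : Perm U) (S : Str W U),
      (S.Fx τ υ ∧ (∀ b, υ (f b) = f (β b)) ∧ Emb S D f) ↔
      ((S.map e).Fx τ (e.permCongr υ) ∧
        (∀ b, e.permCongr υ (Sum.inl b) = Sum.inl (β b)) ∧ Emb (S.map e) D Sum.inl) := by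
    intro υ S
    rw [Str.map_Fx]
    have h2 : (∀ b, υ (f b) = f (β b)) ↔ (∀ b, e.permCongr υ (Sum.inl b) = Sum.inl (β b)) := by
      refine forall_congr' fun b => ?_
      rw [Equiv.permCongr_apply, he', ← he (β b), e.injective.eq_iff]
    have h3 : Emb S D f ↔ Emb (S.map e) D Sum.inl := by
      unfold Emb Str.map
      simp only [he']
      refine and_congr ?_ Iff.rfl
      constructor
      · intro h a b hab
        obtain ⟨c, hc⟩ := h a _ hab
        exact ⟨c, by rw [← he c, hc, Equiv.apply_symm_apply]⟩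
      · intro h a b hab
        obtain ⟨c, hc⟩ := h a (e b) (by simpa using hab)
        exact ⟨c, by rw [← he' c, hc, Equiv.symm_apply_apply]⟩
    rw [h2, h3]
  refine Finset.sum_bij' (fun p _ => (e.permCongr p.1, p.2.map e))
    (fun p _ => (e.symm.permCongr p.1, p.2.map e.symm)) ?_ ?_ ?_ ?_ ?_
  · rintro ⟨υ, S⟩ h
    simp only [mem_filter, mem_univ, true_and] at h ⊢
    exact (key υ S).mp h
  · rintro ⟨υ, S⟩ h
    simp only [mem_filter, mem_univ, true_and] at h ⊢
    apply (key _ _).mpr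
    have h1 : e.permCongr (e.symm.permCongr υ) = υ := by ext a; simp
    rw [h1, Str.map_map_symm]
    exact h
  · rintro ⟨υ, S⟩ h
    simp only [Str.map_symm_map, Prod.mk.injEq, and_true]
    ext a; simp
  · rintro ⟨υ, S⟩ h
    simp only [Str.map_map_symm, Prod.mk.injEq, and_true]
    ext a; simp
  · rintro ⟨υ, S⟩ h
    exact (wt_map e x υ S).symm

end Pool.Agent.TH349.HI
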