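import Pool.Agent.TH349.HI.Comp

/-!
# The recursion for the signed sums
-/

set_option autoImplicit false

open Finset Equiv

namespace Pool.Agent.TH349.HI

variable {F : Type} [Field F] [CharZero F]

omit [CharZero F] in
open Classical in
theorem block_count (W : Type) [Fintype W] (τ : Perm W) (x : F) (M m s : ℕ)
    (hs : (s + 1) * m ≤ M) (ρ : Perm (Fin m)) (C : Str W (Fin m)) (hC : C.Fx (τ ^ (s + 1)) ρ) :
    ∑ p ∈ univ.filter (fun p : Perm (Fin M) × Str W (Fin M) => p.2.Fx τ p.1),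
      wt x p * ((univ.filter fun f : Fin (s + 1) × Fin m ↪ Fin M =>
        (∀ b, p.1 (f b) = f (blk s m ρ b)) ∧ Emb p.2 (tw τ s C) f).card : F) =
    (M.descFactorial ((s + 1) * m) : F) * ((-1) ^ (s * m) * ((Perm.sign ρ : ℤ) : F) *
      (x ^ (s + 1)) ^ C.e * Z W (Fin (M - (s + 1) * m)) τ x) := by
  have h1 : ∀ p : Perm (Fin M) × Str W (Fin M),
      wt x p * ((univ.filter fun f : Fin (s + 1) × Fin m ↪ Fin M =>
        (∀ b, p.1 (f b) = f (blk s m ρ b)) ∧ Emb p.2 (tw τ s C) f).card : F) =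
      ∑ f : Fin (s + 1) × Fin m ↪ Fin M,
        if (∀ b, p.1 (f b) = f (blk s m ρ b)) ∧ Emb p.2 (tw τ s C) f then wt x p else 0 := by
    intro p
    rw [← Finset.sum_filter, Finset.sum_const, nsmul_eq_mul, mul_comm]
  simp_rw [h1]
  rw [Finset.sum_comm]
  have h2 : ∀ f : Fin (s + 1) × Fin m ↪ Fin M,
      ∑ p ∈ univ.filter (fun p : Perm (Fin M) × Str W (Fin M) => p.2.Fx τ p.1),
        (if (∀ b, p.1 (f b) = f (blk s m ρ b)) ∧ Emb p.2 (tw τ s C) f then wt x p else 0) =
      (-1) ^ (s * m) * ((Perm.sign ρ : ℤ) : F) *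
        (x ^ (s + 1)) ^ C.e * Z W (Fin (M - (s + 1) * m)) τ x := by
    intro f
    rw [← Finset.sum_filter, Finset.filter_filter]
    rw [emb_sum τ x (blk s m ρ) (tw τ s C) (tw_Fx τ s C ρ hC) f (M - (s + 1) * m) (by
      rw [Fintype.card_prod, Fintype.card_fin, Fintype.card_fin, Fintype.card_fin]; omega)]
    rw [sign_blk, tw_e, ← pow_mul]
    push_cast
    ring
  rw [Finset.sum_congr rfl (fun f _ => h2 f), Finset.sum_const, nsmul_eq_mul, Finset.card_univ,
    Fintype.card_embedding_eq, Fintype.card_prod, Fintype.card_fin, Fintype.card_fin,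
    Fintype.card_fin]

omit [CharZero F] in
open Classical in
theorem cc_eq_sum (W : Type) [Fintype W] (τ : Perm W) (x : F) (m : ℕ) :
    cc W τ x m = (-1) ^ m / (m.factorial : F) *
      ∑ q ∈ univ.filter (fun q : Perm (Fin m) × Str W (Fin m) => q.2.Conn ∧ q.2.Fx τ q.1),
        ((Perm.sign q.1 : ℤ) : F) * x ^ q.2.e := by
  unfold cc
  congr 1
  rw [Finset.sum_filter, ← Finset.univ_product_univ, Finset.sum_product]

theorem Z_rec (W : Type) [Fintype W] (τ : Perm W) (x : F) (M : ℕ) :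
    (M : F) * Z W (Fin M) τ x = ∑ m ∈ Icc 1 M, ∑ s ∈ range (M / m),
      (m : F) * ((M.descFactorial ((s + 1) * m) : F) * ((-1) ^ (s * m) * ((-1) ^ m *
        cc W (τ ^ (s + 1)) (x ^ (s + 1)) m) * Z W (Fin (M - (s + 1) * m)) τ x)) := by
  classical
  rw [Z_eq, Finset.mul_sum]
  have h1 : ∀ p ∈ univ.filter (fun p : Perm (Fin M) × Str W (Fin M) => p.2.Fx τ p.1),
      (M : F) * wt x p = ∑ m ∈ Icc 1 M, ((m : F) / (m.factorial : F)) * (wt x p *
        ((univ.filter fun f : Fin m ↪ Fin M => CompEmb p.2 f).card : F)) := by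
    intro p _
    have h2 := sum_points (F := F) p.2
    rw [Fintype.card_fin] at h2
    rw [h2, Finset.sum_mul]
    apply Finset.sum_congr rfl
    intro m _
    ring
  rw [Finset.sum_congr rfl h1, Finset.sum_comm]
  apply Finset.sum_congr rfl
  intro m hm
  rw [mem_Icc] at hm
  rw [← Finset.mul_sum]
  have h3 : ∀ p ∈ univ.filter (fun p : Perm (Fin M) × Str W (Fin M) => p.2.Fx τ p.1),
      wt x p * ((univ.filter fun f : Fin m ↪ Fin M => CompEmb p.2 f).card : F) =
      ∑ s ∈ range (M / m), ∑ q ∈ univ.filter (fun q : Perm (Fin m) × Str W (Fin m) =>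
        q.2.Conn ∧ q.2.Fx (τ ^ (s + 1)) q.1), wt x p *
        ((univ.filter fun f : Fin (s + 1) × Fin m ↪ Fin M =>
        (∀ b, p.1 (f b) = f (blk s m q.1 b)) ∧ Emb p.2 (tw τ s q.2) f).card : F) := by
    intro p hp
    simp only [mem_filter, mem_univ, true_and] at hp
    rw [card_compEmb hm.1 p.2 τ p.1 hp, Fintype.card_fin]
    push_cast
    rw [Finset.mul_sum]
    apply Finset.sum_congr rfl
    intro s _
    rw [Finset.mul_sum]
  rw [Finset.sum_congr rfl h3, Finset.sum_comm, Finset.mul_sum]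
  apply Finset.sum_congr rfl
  intro s hs
  rw [mem_range] at hs
  have hsm : (s + 1) * m ≤ M := (Nat.le_div_iff_mul_le hm.1).mp hs
  rw [Finset.sum_comm]
  have h4 : ∀ q ∈ univ.filter (fun q : Perm (Fin m) × Str W (Fin m) =>
        q.2.Conn ∧ q.2.Fx (τ ^ (s + 1)) q.1),
      ∑ p ∈ univ.filter (fun p : Perm (Fin M) × Str W (Fin M) => p.2.Fx τ p.1), wt x p *
        ((univ.filter fun f : Fin (s + 1) × Fin m ↪ Fin M =>
        (∀ b, p.1 (f b) = f (blk s m q.1 b)) ∧ Emb p.2 (tw τ s q.2) f).card : F) =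
      (M.descFactorial ((s + 1) * m) : F) * ((-1) ^ (s * m) *
        Z W (Fin (M - (s + 1) * m)) τ x) * (((Perm.sign q.1 : ℤ) : F) *
        (x ^ (s + 1)) ^ q.2.e) := by
    intro q hq
    simp only [mem_filter, mem_univ, true_and] at hq
    rw [block_count W τ x M m s hsm q.1 q.2 hq.2]
    ring
  rw [Finset.sum_congr rfl h4, ← Finset.mul_sum, cc_eq_sum]
  have h5 : (m.factorial : F) ≠ 0 := by exact_mod_cast m.factorial_ne_zero
  have h6 : ((-1 : F) ^ m) * (-1) ^ m = 1 := by rw [← mul_pow]; simp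
  set Y := ∑ q ∈ univ.filter (fun q : Perm (Fin m) × Str W (Fin m) =>
        q.2.Conn ∧ q.2.Fx (τ ^ (s + 1)) q.1), (((Perm.sign q.1 : ℤ) : F) *
        (x ^ (s + 1)) ^ q.2.e) with hY
  field_simp
  rw [pow_two, h6]
  ring

omit [CharZero F] in
theorem sum_Icc_one (g : ℕ → F) (n : ℕ) : ∑ r ∈ Icc 1 n, g r = ∑ s ∈ range n, g (s + 1) := by
  refine Finset.sum_bij' (fun r _ => r - 1) (fun s _ => s + 1) ?_ ?_ ?_ ?_ ?_
  · intro r hr
    rw [mem_Icc] at hr
    rw [mem_range]
    omega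
  · intro s hs
    rw [mem_range] at hs
    rw [mem_Icc]
    omega
  · intro r hr
    rw [mem_Icc] at hr
    omega
  · intro s hs
    omega
  · intro r hr
    rw [mem_Icc] at hr
    rw [Nat.sub_add_cancel hr.1]

theorem PM_rec (W : Type) [Fintype W] (τ : Perm W) (x : F)
    (M : ℕ) :
    (M : F) * PM W τ x M = ∑ m ∈ Icc 1 M, ∑ r ∈ Icc 1 (M / m),
      (m : F) * cc W (τ ^ r) (x ^ r) m * PM W τ x (M - r * m) := by
  unfold PM
  have h0 : (M : F) * ((-1) ^ M / (M.factorial : F) * Z W (Fin M) τ x) =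
      (-1) ^ M / (M.factorial : F) * ((M : F) * Z W (Fin M) τ x) := by ring
  rw [h0, Z_rec, Finset.mul_sum]
  apply Finset.sum_congr rfl
  intro m hm
  rw [mem_Icc] at hm
  rw [Finset.mul_sum]
  rw [sum_Icc_one]
  apply Finset.sum_congr rfl
  intro s hs
  rw [mem_range] at hs
  have hsm : (s + 1) * m ≤ M := (Nat.le_div_iff_mul_le hm.1).mp hs
  obtain ⟨k, hk⟩ := Nat.exists_eq_add_of_le hsm
  have hk' : M - (s + 1) * m = k := by omega
  generalize Z W (Fin (M - (s + 1) * m)) τ x = Zk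
  rw [hk']
  have h1 : (M.factorial : F) = (k.factorial : F) * (M.descFactorial ((s + 1) * m) : F) := by
    rw [← Nat.factorial_mul_descFactorial hsm, hk']
    push_cast
    ring
  have h2 : (M.factorial : F) ≠ 0 := by exact_mod_cast M.factorial_ne_zero
  have h3 : (k.factorial : F) ≠ 0 := by exact_mod_cast k.factorial_ne_zero
  have h4 : (M.descFactorial ((s + 1) * m) : F) ≠ 0 := by
    intro h; rw [h, mul_zero] at h1; exact h2 h1
  have h5 : (-1 : F) ^ M * ((-1) ^ (s * m) * (-1) ^ m) = (-1) ^ k := by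
    rw [← pow_add, ← pow_add, hk]
    have : (s + 1) * m + k + (s * m + m) = 2 * ((s + 1) * m) + k := by ring
    rw [this, pow_add, pow_mul]
    simp
  rw [h1, ← h5]
  field_simp

end Pool.Agent.TH349.HI
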