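import Pool.Agent.TH349.HI.Rec
import Pool.Agent.TH365.J378
import Pool.Agent.TH830.J374
import Pool.Agent.TH830.J375
import Pool.Agent.TH635.J376
import Pool.Agent.TH635.J377
import Pool.Agent.TH405.J380

/-!
# The values of the connected contributions, and the recursion in terms of the cycle numbers
-/

set_option autoImplicit false

open Finset Equiv

namespace Pool.Agent.TH349.HI

variable {F : Type} [Field F] [CharZero F]

theorem cc_eq (W : Type) [Fintype W] (τ : Perm W) (x : F) (m : ℕ) (hm : 1 ≤ m) :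
    cc W τ x m = (1 / 2) * x ^ (m + 1) *
      ((-1) ^ m *
        (Nat.card {p : W × W // τ p.1 = p.1 ∧ τ p.2 = p.2 ∧ (m = 1 → p.1 ≠ p.2)} : F) +
      (-1) ^ ((m + 1) / 2) *
        (Nat.card {p : W × W // τ p.1 = p.2 ∧ τ p.2 = p.1 ∧ (m = 1 → p.1 ≠ p.2)} : F)) -
      if m % 4 = 1 ∧ 5 ≤ m then x ^ m else 0 := by
  classical
  have h1 : ∀ (ρ : Perm (Fin m)) (C : Str W (Fin m)),
      (if C.Conn ∧ C.Fx τ ρ then ((Perm.sign ρ : ℤ) : F) * x ^ C.e else 0) =
      (if (∃ f u v, IsPath C f u v) ∧ C.Fx τ ρ then ((Perm.sign ρ : ℤ) : F) * x ^ C.e else 0) +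
      (if (∃ f, IsCyc C f) ∧ C.Fx τ ρ then ((Perm.sign ρ : ℤ) : F) * x ^ C.e else 0) := by
    intro ρ C
    by_cases hp : ∃ f u v, IsPath C f u v
    · obtain ⟨f, u, v, h⟩ := hp
      have h2 := Pool.Agent.TH635.J377.IsPath.conn C f u v h
      have h3 : ∃ f u v, IsPath C f u v := ⟨f, u, v, h⟩
      simp [h2.1, h2.2, h3]
    · by_cases hc : ∃ f, IsCyc C f
      · obtain ⟨f, h⟩ := hc
        have h2 := Pool.Agent.TH635.J377.IsCyc.conn C f h
        have h3 : ∃ f, IsCyc C f := ⟨f, h⟩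
        simp [h2, hp, h3]
      · have h2 : ¬ C.Conn := by
          intro h
          rcases Pool.Agent.TH830.J374.classify hm C h with h | h
          · exact hp h
          · exact hc h
        simp [h2, hp, hc]
  unfold cc
  simp_rw [h1]
  simp_rw [Finset.sum_add_distrib]
  rw [Pool.Agent.TH830.J375.path_sum W τ x m hm, Pool.Agent.TH635.J376.cyc_sum W τ x m]
  have h5 : (m.factorial : F) ≠ 0 := by exact_mod_cast m.factorial_ne_zero
  have h6 : (-1 : F) ^ m * (-1) ^ (m / 2) = (-1) ^ ((m + 1) / 2) := by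
    rw [← pow_add]
    rcases Nat.even_or_odd m with ⟨k, hk⟩ | ⟨k, hk⟩
    · have e1 : m + m / 2 = 2 * k + k := by omega
      have e2 : (m + 1) / 2 = k := by omega
      rw [e1, e2, pow_add, pow_mul]
      simp
    · have e1 : m + m / 2 = 2 * k + (k + 1) := by omega
      have e2 : (m + 1) / 2 = k + 1 := by omega
      rw [e1, e2, pow_add, pow_mul]
      simp
  rw [← h6]
  split_ifs with h
  · have h7 : (-1 : F) ^ m = -1 := by
      have : Odd m := by rw [Nat.odd_iff]; omega
      exact this.neg_one_pow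
    rw [h7]
    field_simp
    ring
  · field_simp
    ring

theorem sq_ap {W : Type} (σ : Perm W) (w : W) : (σ ^ 2) w = σ (σ w) := by
  rw [pow_two, Perm.mul_apply]

omit [CharZero F] in
theorem card_F (W : Type) [Fintype W] (σ : Perm W) (m : ℕ) :
    (Nat.card {p : W × W // σ p.1 = p.1 ∧ σ p.2 = p.2 ∧ (m = 1 → p.1 ≠ p.2)} : F) =
      (Nat.card {w // σ w = w} : F) ^ 2 - if m = 1 then (Nat.card {w // σ w = w} : F) else 0 := by
  classical
  have hall : Nat.card {p : W × W // σ p.1 = p.1 ∧ σ p.2 = p.2} = (Nat.card {w // σ w = w}) ^ 2 := by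
    rw [pow_two, ← Nat.card_prod]
    exact Nat.card_congr (Equiv.subtypeProdEquivProd (p := fun w => σ w = w)
      (q := fun w => σ w = w))
  split_ifs with hm
  · subst hm
    have h1 : Nat.card {p : W × W // σ p.1 = p.1 ∧ σ p.2 = p.2} =
        Nat.card {p : W × W // σ p.1 = p.1 ∧ σ p.2 = p.2 ∧ (1 = 1 → p.1 ≠ p.2)} +
        Nat.card {w // σ w = w} := by
      rw [← Nat.card_sum]
      refine Nat.card_congr
        { toFun := fun p => if h : p.1.1 = p.1.2 then .inr ⟨p.1.1, p.2.1⟩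
            else .inl ⟨p.1, p.2.1, p.2.2, fun _ => h⟩
          invFun := fun q => match q with
            | .inl q => ⟨q.1, q.2.1, q.2.2.1⟩
            | .inr w => ⟨(w.1, w.1), w.2, w.2⟩
          left_inv := ?_
          right_inv := ?_ }
      · rintro ⟨⟨a, b⟩, ha, hb⟩
        by_cases h : a = b
        · subst h; simp
        · simp [h]
      · rintro (⟨⟨a, b⟩, ha, hb, hab⟩ | ⟨w, hw⟩)
        · have h : a ≠ b := hab rfl
          simp [h]
        · simp
    rw [hall] at h1
    have h2 := congrArg (Nat.cast : ℕ → F) h1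
    push_cast at h2 ⊢
    rw [h2]
    ring
  · have h1 : Nat.card {p : W × W // σ p.1 = p.1 ∧ σ p.2 = p.2 ∧ (m = 1 → p.1 ≠ p.2)} =
        Nat.card {p : W × W // σ p.1 = p.1 ∧ σ p.2 = p.2} :=
      Nat.card_congr (Equiv.subtypeEquivRight (fun p => by simp [hm]))
    rw [h1, hall]
    push_cast
    ring

omit [CharZero F] in
theorem card_G (W : Type) [Fintype W] (σ : Perm W) (m : ℕ) :
    (Nat.card {p : W × W // σ p.1 = p.2 ∧ σ p.2 = p.1 ∧ (m = 1 → p.1 ≠ p.2)} : F) =
      (Nat.card {w // (σ ^ 2) w = w} : F) -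
        if m = 1 then (Nat.card {w // σ w = w} : F) else 0 := by
  classical
  have hall : Nat.card {p : W × W // σ p.1 = p.2 ∧ σ p.2 = p.1} =
      Nat.card {w // (σ ^ 2) w = w} := by
    refine Nat.card_congr
      { toFun := fun p => ⟨p.1.1, by
          rw [pow_two, Perm.mul_apply, p.2.1, p.2.2]⟩
        invFun := fun w => ⟨(w.1, σ w.1), rfl, by
          exact (sq_ap σ w.1).symm.trans w.2⟩
        left_inv := ?_
        right_inv := fun w => rfl }
    rintro ⟨⟨a, b⟩, ha, hb⟩
    simp only at ha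
    subst ha
    rfl
  split_ifs with hm
  · subst hm
    have h1 : Nat.card {p : W × W // σ p.1 = p.2 ∧ σ p.2 = p.1} =
        Nat.card {p : W × W // σ p.1 = p.2 ∧ σ p.2 = p.1 ∧ (1 = 1 → p.1 ≠ p.2)} +
        Nat.card {w // σ w = w} := by
      rw [← Nat.card_sum]
      refine Nat.card_congr
        { toFun := fun p => if h : p.1.1 = p.1.2 then .inr ⟨p.1.1, by rw [p.2.1, h]⟩
            else .inl ⟨p.1, p.2.1, p.2.2, fun _ => h⟩
          invFun := fun q => match q with
            | .inl q => ⟨q.1, q.2.1, q.2.2.1⟩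
            | .inr w => ⟨(w.1, w.1), w.2, w.2⟩
          left_inv := ?_
          right_inv := ?_ }
      · rintro ⟨⟨a, b⟩, ha, hb⟩
        by_cases h : a = b
        · subst h; simp
        · simp [h]
      · rintro (⟨⟨a, b⟩, ha, hb, hab⟩ | ⟨w, hw⟩)
        · have h : a ≠ b := hab rfl
          simp [h]
        · simp
    rw [hall] at h1
    have h2 := congrArg (Nat.cast : ℕ → F) h1
    push_cast at h2 ⊢
    rw [h2]
    ring
  · have h1 : Nat.card {p : W × W // σ p.1 = p.2 ∧ σ p.2 = p.1 ∧ (m = 1 → p.1 ≠ p.2)} =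
        Nat.card {p : W × W // σ p.1 = p.2 ∧ σ p.2 = p.1} :=
      Nat.card_congr (Equiv.subtypeEquivRight (fun p => by simp [hm]))
    rw [h1, hall]
    push_cast
    ring

omit [CharZero F] in
theorem PM_zero (W : Type) [Fintype W] (τ : Perm W) (x : F) : PM W τ x 0 = 1 := by
  classical
  unfold PM Z
  have h1 : ∀ S : Str W (Fin 0), S.Fx τ 1 := fun S => ⟨fun a => a.elim0, fun a => a.elim0⟩
  have h2 : ∀ S : Str W (Fin 0), S.e = 0 := by
    intro S
    unfold Str.e
    have e1 : Nat.card {p : Fin 0 × W // S.T p.1 p.2} = 0 := by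
      rw [Nat.card_eq_zero]; left; exact ⟨fun p => p.1.1.elim0⟩
    have e2 : Nat.card {p : Fin 0 × Fin 0 // S.A p.1 p.2} = 0 := by
      rw [Nat.card_eq_zero]; left; exact ⟨fun p => p.1.1.elim0⟩
    rw [e1, e2]
  let S0 : Str W (Fin 0) := ⟨fun _ _ => False, fun _ _ => False, fun a => a.elim0,
    fun a => a.elim0, fun a => a.elim0⟩
  have hu : ∀ S : Str W (Fin 0), S = S0 := by
    intro S
    apply Str.ext
    · funext a; exact a.elim0
    · funext a; exact a.elim0
  have h3 : (univ : Finset (Str W (Fin 0))) = {S0} := by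
    ext S; simp [hu S]
  have h4 : (univ : Finset (Perm (Fin 0))) = {1} := by
    ext S; simp [Subsingleton.elim S 1]
  rw [h4, Finset.sum_singleton, h3, Finset.sum_singleton, if_pos (h1 S0), h2]
  simp

theorem PM_eq (W : Type) [Fintype W] [DecidableEq W] (τ : Perm W) (x : F) (K : ℕ)
    (hK : Fintype.card W ≤ K) (n M : ℕ) (hM : M ≤ n) :
    PM W τ x M = PowerSeries.coeff M (cy x n * ppr x n K (cyc τ)) := by
  refine Pool.Agent.TH365.J378.prod_rec x (cyc τ) K (PM W τ x) (PM_zero W τ x) ?_ n M hM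
  intro M hM
  rw [PM_rec]
  apply Finset.sum_congr rfl
  intro m hm
  rw [mem_Icc] at hm
  apply Finset.sum_congr rfl
  intro r hr
  rw [mem_Icc] at hr
  congr 2
  rw [cc_eq W (τ ^ r) (x ^ r) m hm.1, card_F, card_G, ← pow_mul (M := Perm W) τ r 2]
  have h1 := Pool.Agent.TH405.J380.card_fixed_pow τ K hK r hr.1
  have h2 := Pool.Agent.TH405.J380.card_fixed_pow τ K hK (2 * r) (by omega)
  rw [mul_comm r 2, h1, h2, ← pow_mul, ← pow_mul]

end Pool.Agent.TH349.HI
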